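import Pool.Agent.Helper73.DC.St7

set_option autoImplicit false

/-! Module D1 of project DC: the table functions are E2. -/

namespace Pool.Agent.Helper92.DC

open Pool.Agent.Helper73.DC
open Finset
open scoped Classical

section
variable {α : Type} [Fintype α]

theorem eite (h2 : StL2) {p : List α → (ℕ → ℕ) → Prop} [∀ w v, Decidable (p w v)] {F G : VF α}
    (hp : E2P p) (hF : E2 F) (hG : E2 G) : E2 (fun w v => if p w v then F w v else G w v) := by
  have := (h2 (α := α)).2.2 p F G hp hF hG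
  convert this

theorem elt (h2 : StL2) {F G : VF α} (hF : E2 F) (hG : E2 G) : E2P (fun w v => F w v < G w v) :=
  ((h2 (α := α)).1 F G hF hG).2.1

theorem eeq (h2 : StL2) {F G : VF α} (hF : E2 F) (hG : E2 G) : E2P (fun w v => F w v = G w v) :=
  ((h2 (α := α)).1 F G hF hG).2.2

theorem enot (h2 : StL2) {p : List α → (ℕ → ℕ) → Prop} (hp : E2P p) : E2P (fun w v => ¬ p w v) :=
  ((h2 (α := α)).2.1 p p hp hp).1

theorem eand (h2 : StL2) {p q : List α → (ℕ → ℕ) → Prop} (hp : E2P p) (hq : E2P q) :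
    E2P (fun w v => p w v ∧ q w v) :=
  ((h2 (α := α)).2.1 p q hp hq).2.1

/-- A table with two arguments, cut off. -/
noncomputable def tabf (m : ℕ) (t : ℕ → ℕ → ℕ) (a b : ℕ) : ℕ := if a < m ∧ b < m then t a b else 0

theorem tabf_eq {m : ℕ} {t : ℕ → ℕ → ℕ} {a b : ℕ} (ha : a < m) (hb : b < m) :
    tabf m t a b = t a b := if_pos ⟨ha, hb⟩

theorem etab (h6 : StL6) (m : ℕ) (t : ℕ → ℕ → ℕ) {F G : VF α} (hF : E2 F) (hG : E2 G) :
    E2 (fun w v => tabf m t (F w v) (G w v)) :=
  (h6 (α := α) F G m (fun _ => 0) t hF hG).2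

theorem etab1 (h6 : StL6) (m : ℕ) (t : ℕ → ℕ) {F : VF α} (hF : E2 F) :
    E2 (fun w v => if F w v < m then t (F w v) else 0) :=
  (h6 (α := α) F F m t (fun _ _ => 0) hF hF).1

variable (T : Tab)

/-- The size of the tables. -/
noncomputable def big (α : Type) [Fintype α] (T : Tab) : ℕ := T.F + T.NQ + Fintype.card α + 1

theorem kd_lt {w : List α} {x : ℕ} (h0 : T.kd w x ≠ 0) (h6 : T.kd w x ≠ 6) : x < T.ac w.length := by
  by_contra hx
  unfold Tab.kd at h0 h6
  rw [if_neg hx] at h0 h6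
  by_cases h : x = T.ac w.length
  · rw [if_pos h] at h0
    exact h0 rfl
  · rw [if_neg h] at h6
    exact h6 rfl

theorem div_lt {w : List α} {x : ℕ} (h : x < T.ac w.length) : x / (w.length + 1) < T.F :=
  Nat.div_lt_of_lt_mul (by rw [mul_comm]; exact h)

theorem qbig {w : List α} {x : ℕ} (h : x < T.ac w.length) :
    x / (w.length + 1) < big α T := by
  have := div_lt T h
  unfold big
  omega

theorem lbig (w : List α) (i : ℕ) : lett w i < big α T := by
  have := lett_le w i
  unfold big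
  omega

/-- Main functions of the context with entries `x = v 0`, `r = v 1`. -/
theorem E_N : E2 (α := α) (fun w _ => w.length + 1) := E2.succ _ E2.len

theorem E_Q (h4 : StL4) {X : VF α} (hX : E2 X) : E2 (fun w v => X w v / (w.length + 1)) :=
  (h4 X (fun w _ => w.length + 1) hX E_N).1

theorem E_I (h4 : StL4) {X : VF α} (hX : E2 X) : E2 (fun w v => X w v % (w.length + 1)) :=
  (h4 X (fun w _ => w.length + 1) hX E_N).2

theorem E_L (h4 : StL4) {X : VF α} (hX : E2 X) :
    E2 (fun w v => lett w (X w v % (w.length + 1))) := E2.letr _ (E_I h4 hX)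

theorem E_ac : E2 (α := α) (fun w _ => T.ac w.length) := (E2.const T.F).mul E_N

theorem E_kd (h2 : StL2) (h4 : StL4) (h6 : StL6) : E2 (α := α) (fun w v => T.kd w (v 0)) := by
  have hX : E2 (α := α) (fun _ v => v 0) := E2.get 0
  have h := eite h2 (elt h2 hX (E_ac T)) (etab h6 (big α T) T.tk (E_Q h4 hX) (E_L h4 hX))
    (eite h2 (eeq h2 hX (E_ac T)) (E2.const 0) (E2.const 6))
  convert h using 3 with w v
  unfold Tab.kd
  by_cases h1 : v 0 < T.ac w.length
  · rw [if_pos h1, if_pos h1, tabf_eq (qbig T h1) (lbig T w _)]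
  · rw [if_neg h1, if_neg h1]

theorem E_cl (h2 : StL2) (h4 : StL4) (h6 : StL6) : E2 (α := α) (fun w v => T.cl w (v 0)) := by
  have hX : E2 (α := α) (fun _ v => v 0) := E2.get 0
  have hk := E_kd (α := α) T h2 h4 h6
  have h := eite h2 (eeq h2 hk (E2.const 5))
    (((etab h6 (big α T) T.tn (E_Q h4 hX) (E_L h4 hX)).mul E_N).add (E_I h4 hX))
    (eite h2 (eeq h2 hk (E2.const 4)) hX (E_ac T))
  convert h using 3 with w v
  unfold Tab.cl
  by_cases h1 : T.kd w (v 0) = 5
  · have h3 := kd_lt T (w := w) (x := v 0) (by omega) (by omega)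
    rw [if_pos h1, if_pos h1, tabf_eq (qbig T h3) (lbig T w _)]
  · rw [if_neg h1, if_neg h1]

theorem E_rsb (h1 : StL1) (h2 : StL2) (h4 : StL4) (h6 : StL6) :
    E2 (α := α) (fun w v => rsb T w (v 0) (v 1)) := by
  have hX : E2 (α := α) (fun _ v => v 0) := E2.get 0
  have hR : E2 (α := α) (fun _ v => v 1) := E2.get 1
  have hR1 : E2 (α := α) (fun _ v => v 1 - 1) := (h1 (fun _ v => v 1) (fun _ _ => 1) hR (E2.const 1)).1
  have hk := E_kd (α := α) T h2 h4 h6
  have htn := (etab h6 (big α T) T.tn (E_Q h4 hX) (E_L h4 hX)).mul E_N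
  have hI := E_I h4 hX
  have hmin : E2 (α := α) (fun w v => min (v 0 % (w.length + 1) + 1) w.length) :=
    (h1 _ _ (E2.succ _ hI) E2.len).2.1
  have h := eite h2 (elt h2 (E_Q h4 hR1) (E2.const T.NQ))
    (eite h2 (eeq h2 hk (E2.const 2)) (htn.add hI)
      (eite h2 (eeq h2 hk (E2.const 3)) (htn.add hmin)
        (eite h2 (eeq h2 hk (E2.const 4)) hX
          (eite h2 (eand h2 (eeq h2 hk (E2.const 5)) (enot h2 (eeq h2 hR (E2.const 0))))
            (((etab h6 (big α T) T.ts (E_Q h4 hX) (E_Q h4 hR1)).mul E_N).add (E_I h4 hR1))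
            (E_ac T))))) (E_ac T)
  convert h using 3 with w v
  unfold rsb
  by_cases hr : (v 1 - 1) / (w.length + 1) < T.NQ
  · rw [if_pos hr, if_pos hr]
    unfold Tab.rs
    by_cases c2 : T.kd w (v 0) = 2
    · have h3 := kd_lt T (w := w) (x := v 0) (by omega) (by omega)
      rw [if_pos c2, if_pos c2, tabf_eq (qbig T h3) (lbig T w _)]
    · rw [if_neg c2, if_neg c2]
      by_cases c3 : T.kd w (v 0) = 3
      · have h3 := kd_lt T (w := w) (x := v 0) (by omega) (by omega)
        rw [if_pos c3, if_pos c3, tabf_eq (qbig T h3) (lbig T w _)]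
      · rw [if_neg c3, if_neg c3]
        by_cases c4 : T.kd w (v 0) = 4
        · rw [if_pos c4, if_pos c4]
        · rw [if_neg c4, if_neg c4]
          by_cases c5 : T.kd w (v 0) = 5 ∧ v 1 ≠ 0
          · have h3 := kd_lt T (w := w) (x := v 0) (by omega) (by omega)
            have h7 : (v 1 - 1) / (w.length + 1) < big α T := by
              unfold big
              omega
            rw [if_pos c5, if_pos c5, tabf_eq (qbig T h3) h7]
          · rw [if_neg c5, if_neg c5]
  · rw [if_neg hr, if_neg hr]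

theorem E_f0 (h1 : StL1) (h2 : StL2) (h4 : StL4) (h6 : StL6) :
    E2 (α := α) (fun w v => T.f0 w (v 0)) := by
  have hX : E2 (α := α) (fun _ v => v 0) := E2.get 0
  have htb := etab h6 (big α T) T.tb (E_Q h4 hX) (E_L h4 hX)
  have h := eite h2 (elt h2 hX (E_ac T))
    (eite h2 (eeq h2 htb (E2.const 0)) (E2.const 0)
      (eite h2 (eeq h2 htb (E2.const 1)) (E2.const 1)
        (((((h1 _ _ htb (E2.const 2)).1).mul E_N).add (E_I h4 hX)).add (E2.const 2))))
    (eite h2 (eeq h2 hX (E_ac T)) (E2.const 1) (E2.const 0))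
  convert h using 3 with w v
  unfold Tab.f0
  by_cases c : v 0 < T.ac w.length
  · rw [if_pos c, if_pos c, tabf_eq (qbig T c) (lbig T w _)]
  · rw [if_neg c, if_neg c]

theorem val_lt {t F n i : ℕ} (ht : t < F) (hi : i ≤ n) : t * (n + 1) + i ≤ F * (n + 1) := by
  have h1 : (t + 1) * (n + 1) ≤ F * (n + 1) := Nat.mul_le_mul_right _ ht
  have h2 : (t + 1) * (n + 1) = t * (n + 1) + (n + 1) := by ring
  omega

theorem mod_le (x n : ℕ) : x % (n + 1) ≤ n := Nat.lt_succ_iff.1 (Nat.mod_lt _ (Nat.succ_pos _))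

theorem cl_le (w : List α) (x : ℕ) : T.cl w x ≤ T.F * (w.length + 1) := by
  unfold Tab.cl
  split_ifs with c5 c4
  · exact val_lt (T.hn _ _) (mod_le _ _)
  · exact (kd_lt T (w := w) (x := x) (by omega) (by omega)).le
  · exact le_rfl

theorem rsb_le (w : List α) (x r : ℕ) : rsb T w x r ≤ T.F * (w.length + 1) := by
  unfold rsb Tab.rs
  split_ifs with h0 c2 c3 c4 c5
  · exact val_lt (T.hn _ _) (mod_le _ _)
  · exact val_lt (T.hn _ _) (min_le_right _ _)
  · exact (kd_lt T (w := w) (x := x) (by omega) (by omega)).le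
  · exact val_lt (T.hs _ _) (mod_le _ _)
  · exact le_rfl
  · exact le_rfl

theorem f0_le (w : List α) (x : ℕ) : T.f0 w x ≤ (T.NQ + 1) * (w.length + 1) := by
  have h1 : 1 ≤ (T.NQ + 1) * (w.length + 1) := Nat.one_le_iff_ne_zero.2 (by positivity)
  unfold Tab.f0
  split_ifs with c c0 c1 c2
  · exact Nat.zero_le _
  · exact h1
  · have h2 := T.hb (x / (w.length + 1)) (lett w (x % (w.length + 1)))
    set b := T.tb (x / (w.length + 1)) (lett w (x % (w.length + 1))) with hb
    obtain ⟨b', hb'⟩ : ∃ b', b = b' + 2 := ⟨b - 2, by omega⟩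
    rw [hb', Nat.add_sub_cancel]
    have h3 : b' < T.NQ := by omega
    have h4 := mod_le x w.length
    have h5 : (b' + 1) * (w.length + 1) ≤ T.NQ * (w.length + 1) := Nat.mul_le_mul_right _ h3
    have h6 : (b' + 1) * (w.length + 1) = b' * (w.length + 1) + (w.length + 1) := by ring
    have h7 : (T.NQ + 1) * (w.length + 1) = T.NQ * (w.length + 1) + (w.length + 1) := by ring
    omega
  · exact h1
  · exact Nat.zero_le _

theorem pow_big {M c n : ℕ} (h : c ≤ M) : c * (n + 1) < (n + 2) ^ (M + 1) := by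
  have h1 : c < (n + 2) ^ M := by
    calc c ≤ M := h
      _ < 2 ^ M := Nat.lt_two_pow_self
      _ ≤ (n + 2) ^ M := Nat.pow_le_pow_left (by omega) _
  calc c * (n + 1) ≤ c * (n + 2) := Nat.mul_le_mul_left _ (by omega)
    _ < (n + 2) ^ M * (n + 2) := Nat.mul_lt_mul_of_pos_right h1 (by omega)
    _ = (n + 2) ^ (M + 1) := (pow_succ _ _).symm

end

theorem mD1 : StL1 → StL2 → StL3 → StL4 → StL5 → StL6 → StD1 := by
  intro h1 h2 _ h4 _ h6 α _ T
  refine ⟨E_cl T h2 h4 h6, E_rsb T h1 h2 h4 h6, E_f0 T h1 h2 h4 h6,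
    fun t _ => (E2.const t).mul E_N, T.F + T.NQ + 1 + 1, fun w x r => ⟨?_, ?_, ?_, ?_, ?_⟩⟩
  · exact (cl_le T w x).trans_lt (pow_big (by omega))
  · exact (rsb_le T w x r).trans_lt (pow_big (by omega))
  · exact (f0_le T w x).trans_lt (pow_big (by omega))
  · exact pow_big (by omega)
  · have := pow_big (M := T.F + T.NQ + 1) (c := 1) (n := w.length) (by omega)
    omega

end Pool.Agent.Helper92.DC
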