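import Pool.Agent.Helper73.DC.St8

set_option autoImplicit false

/-! Module G7 of project DC: LogDCFL, assembly. -/

namespace Pool.Agent.Helper92.DC

open Pool.Agent.Helper73.DC
open Finset
open scoped Classical

theorem Ev_pos {lf cl : ℕ → ℕ} {rs : ℕ → ℕ → ℕ} {x r m n : ℕ}
    (h : Ev lf cl rs (fun _ => 1) x r m n) : 1 ≤ m := by
  cases h with
  | leaf _ _ _ => exact le_rfl
  | node _ r1 m1 n1 _ m2 n2 _ _ _ =>
    show 1 ≤ 1 + m1 + m2
    omega

theorem pcd_zero (n : ℕ) {k : ℕ} : pcd n (fun _ : Fin k => 0) = 0 := by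
  unfold pcd
  apply Finset.sum_eq_zero
  intro j _
  exact Nat.zero_mul _

theorem mG7 : StABS → StG1 → StG2 → StG3 → StG4 → StG5 → StG6 → StG7 := by
  intro hABS h1 h2 _ h4 h5 h6 α _ M e hM
  obtain ⟨T, K, num, qn, hd⟩ := h2 M
  obtain ⟨hcl, hrs, hlf, hc, e1, hb⟩ := h1 (α := α) T
  have hz : [M.z0].length ≤ K := hd.hK
  have hnode : ∀ w : List α, num M.q0 [M.z0] * (w.length + 2) ^ T.k =
      mnd M num w.length M.q0 [M.z0] (fun _ => 0) := by
    intro w
    unfold mnd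
    rw [pcd_zero, hd.hk]
    exact (Nat.add_zero _).symm
  have hfwd : ∀ (w : List α) (t : ℕ), M.AccIn w t → ∃ m k, m + 1 ≤ (3 * K + 3) * t + 3 ∧
      Ev (T.lf w) (T.cl w) (T.rs w) (fun _ => 1) (num M.q0 [M.z0] * (w.length + 2) ^ T.k)
        0 m k := by
    rintro w t ⟨l, hl, q, p, s, hq, hr⟩
    obtain ⟨m, k, hm, hE⟩ := (h5 M T K num qn hd w l M.q0 [M.z0] (fun _ => 0) hz
      (fun _ => Nat.zero_le _)).1 q p s hq hr
    refine ⟨m, k, ?_, by rw [hnode]; exact hE⟩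
    have h7 : (3 * K + 3) * l ≤ (3 * K + 3) * t := Nat.mul_le_mul_left _ hl
    have h8 : (if [M.z0] = [] then 2 else 0 : ℕ) = 0 := if_neg (by simp)
    rw [h8] at hm
    simp only [List.length_cons, List.length_nil] at hm
    omega
  have hbwd : ∀ (w : List α) (m k : ℕ),
      Ev (T.lf w) (T.cl w) (T.rs w) (fun _ => 1) (num M.q0 [M.z0] * (w.length + 2) ^ T.k)
        0 m k → w ∈ M.lang := by
    intro w m k hE
    obtain ⟨l, q', p', s', hq, hr⟩ := (h4 M T K num qn hd w _ 0 m k hE M.q0 [M.z0] (fun _ => 0) hz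
      (fun _ => Nat.zero_le _) (hnode w)).1 rfl []
    exact ⟨l, l, le_rfl, q', p', s', hq, hr⟩
  have hpow : ∀ n : ℕ, (n + 2) ^ e1 ≤ (n + 2) ^ (e + e1 + (3 * K + 6)) := fun n =>
    Nat.pow_le_pow_right (by omega) (by omega)
  refine hABS M.lang (fun w x => T.cl w x) (fun w x => T.lf w x) (fun w x => T.lf w x)
    (fun _ _ => 1) (fun w x r => T.rs w x r) (fun w => num M.q0 [M.z0] * (w.length + 2) ^ T.k)
    (e + e1 + (3 * K + 6)) hcl hrs hlf (hc _) ?_ ?_ ?_ ?_ ?_ ?_ ?_ ?_ ?_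
  · exact fun w x => (hb w x 0).1.trans_le (hpow _)
  · exact fun w x r => (hb w x r).2.1.trans_le (hpow _)
  · exact fun w x => (hb w x 0).2.2.1.trans_le (hpow _)
  · intro w
    have h7 : num M.q0 [M.z0] * (w.length + 2) ^ T.k < T.ac w.length := by
      unfold MTab.ac MTab.P
      exact Nat.mul_lt_mul_of_pos_right (hd.hnum _ _ hz) (by positivity)
    exact h7.trans ((hb w 0 0).2.2.2.trans_le (hpow _))
  · exact fun w x h => h
  · exact fun w x r h => ⟨1, 1, Ev.leaf x r h⟩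
  · intro w x r n h
    have := Ev_pos h
    omega
  · intro w
    constructor
    · rintro ⟨t, ht⟩
      obtain ⟨m, k, _, hE⟩ := hfwd w t ht
      exact ⟨m, k, hE⟩
    · rintro ⟨m, k, hE⟩
      exact hbwd w m k hE
  · intro w m n hE
    obtain ⟨m', k', hm', hE'⟩ := hfwd w _ (hM w (hbwd w m n hE))
    obtain ⟨_, hmm, _⟩ := h6 _ _ _ _ _ _ _ _ _ _ _ hE hE'
    rw [hmm]
    have h8 : 1 ≤ (w.length + 2) ^ e := Nat.one_le_pow _ _ (by omega)
    have h9 : 3 * K + 6 ≤ (w.length + 2) ^ (3 * K + 6) := by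
      calc 3 * K + 6 ≤ 2 ^ (3 * K + 6) := Nat.lt_two_pow_self.le
        _ ≤ _ := Nat.pow_le_pow_left (by omega) _
    have h10 : (w.length + 2) ^ (e + (3 * K + 6)) ≤ (w.length + 2) ^ (e + e1 + (3 * K + 6)) :=
      Nat.pow_le_pow_right (by omega) (by omega)
    have h11 : (3 * K + 6) * (w.length + 2) ^ e ≤ (w.length + 2) ^ (e + (3 * K + 6)) := by
      rw [pow_add, mul_comm]
      exact Nat.mul_le_mul_left _ h9
    have h12 : (3 * K + 6) * (w.length + 2) ^ e =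
        (3 * K + 3) * (w.length + 2) ^ e + 3 * (w.length + 2) ^ e := by ring
    omega

end Pool.Agent.Helper92.DC
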